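import Pool.Agent.Helper98.T4.Count
import Pool.Agent.Helper25.T4.Macro

/-!
# T4', far pairs: the two kinds of void patterns
-/

namespace Pool.Agent.Helper98.T4

open Finset Pool.Agent.Helper27.T4 Pool.Agent.Helper5.ET Pool.Agent.Helper25.T4
  Pool.Agent.Helper29.T4

/-- a family whose product is known and has few factorizations -/
theorem void_prod {s s' n : ℕ} (hss : sl s' ≤ sl s) {C C' : Finset (Fin 3)} (f : Fin 3)
    (hA : f ∉ frs (sl s) C) (hB : f ∉ frs (sl s') C') (hd : f ∉ C ∨ f ∉ C')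
    (hte : te (decide (f ∈ C)) (decide (f ∈ C')) (al f (sl s)) (al f (sl s')) Mo.prod ≤ 0) :
    VoidC s s' n (10 ^ 7) C C' := by
  intro T hT hc hP _
  rcases T.eq_empty_or_nonempty with h0 | ⟨y, hy⟩
  · rw [h0]
    exact Nat.zero_le _
  have hyY := hT hy
  have hx := (mem_YY.mp hyY).2.2.2.1
  have hx' := (mem_YY.mp hyY).2.2.2.2.1
  obtain ⟨P, hP1, hP2⟩ := card_prod hss (C := C) (C' := C') hx hx' f
  have hP3 : P ≤ 10 ^ 7 := by
    have h1 : Real.exp (te (decide (f ∈ C)) (decide (f ∈ C')) (al f (sl s)) (al f (sl s'))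
        Mo.prod) ≤ 1 := Real.exp_le_one_iff.mpr hte
    have h2 : (P : ℝ) ≤ 10 ^ 7 := by linarith
    exact_mod_cast h2
  refine le_trans ?_ hP3
  have hmemU : ∀ z ∈ T, hx1 z f ∈ Uc s C (hx1 y) f ∧ hx2 z f ∈ Uc s' C' (hx2 y) f := by
    intro z hz
    have hm := mem_YY.mp (hT hz)
    constructor
    · unfold Uc
      split_ifs with hf
      · rw [Finset.mem_singleton]
        exact ((hc y hy z hz).1 f hf).symm
      · exact mem_XX_UU hm.2.2.2.1 f
    · unfold Uc
      split_ifs with hf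
      · rw [Finset.mem_singleton]
        exact ((hc y hy z hz).2.1 f hf).symm
      · exact mem_XX_UU hm.2.2.2.2.1 f
  have hkey : ∀ z ∈ T, lam s' f (hx1 z f) + lam s' f (hx2 z f) + (rA s f y + rB s' n f y) ≡ n
      [MOD pr f ^ cnt f (sl s')] := by
    intro z hz
    have h1 := congA hyY (hT hz) (hc y hy z hz) hA
    have h2 := congB hyY (hT hz) (hc y hy z hz) hB
    have h3 := h1.of_dvd (pow_dvd_pow (pr f) (cnt_mono f hss))
    have h4 := lam_red hss (Uc_sub hx C f (hmemU z hz).1)
    have h5 := h3.trans (h4.add_right (rA s f y))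
    have h6 := h2.trans ((h5.add_right (lam s' f (hx2 z f))).add_right (rB s' n f y))
    have h7 : lam s' f (hx1 z f) + rA s f y + lam s' f (hx2 z f) + rB s' n f y =
        lam s' f (hx1 z f) + lam s' f (hx2 z f) + (rA s f y + rB s' n f y) := by ring
    rw [h7] at h6
    exact h6.symm
  refine le_trans (Finset.card_le_card_of_injOn (fun z : Hit => (hx1 z f, hx2 z f)) ?_ ?_)
    (hP2 (lam s' f (hx1 y f) + lam s' f (hx2 y f)))
  · intro z hz
    have hz' := Finset.mem_coe.mp hz
    rw [Finset.mem_coe, Finset.mem_filter, Finset.mem_product]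
    refine ⟨hmemU z hz', ?_⟩
    exact Nat.ModEq.add_right_cancel' (rA s f y + rB s' n f y)
      ((hkey z hz').trans (hkey y hy).symm)
  · intro z hz w hw h
    have h' := Prod.mk.inj h
    rcases hd with h1 | h1
    · exact hP.2.2.1 f h1 hz hw h'.1
    · exact hP.2.2.2 f h1 hz hw h'.2

/-- the element `z` is unique -/
theorem void_z {s s' n : ℕ} {C C' : Finset (Fin 3)} (G G' : Finset (Fin 3))
    (hdis : Disjoint G G') (hG : ∀ f ∈ G, f ∈ C ∧ f ∉ frs (sl s) C)
    (hG' : ∀ f ∈ G', f ∈ C' ∧ f ∉ frs (sl s') C') (N : ℝ)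
    (hN : (Nj (sk (s' + 1)) : ℝ) ≤ Real.exp N)
    (h : N ≤ ∑ f ∈ G, al f (sl s) + ∑ f ∈ G', al f (sl s')) : VoidC s s' n 2 C C' := by
  classical
  intro T hT hc _ hinj
  rcases T.eq_empty_or_nonempty with h0 | ⟨y, hy⟩
  · rw [h0]
    exact Nat.zero_le _
  have hyY := hT hy
  set e : Fin 3 → ℕ := fun f => if f ∈ G then cnt f (sl s) else if f ∈ G' then cnt f (sl s')
    else 0 with he
  set L := Nj (sk (s' + 1)) with hL
  have hmain : (T.image hz).card ≤ L / (∏ f, pr f ^ e f) + 1 := by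
    have hcl := card_classes_le (n + 1 - L) L
      (fun f => pr f ^ e f) (fun _ => hz y) (fun f => pow_pos (pr_prime f).pos _)
      (pw pr_prime pr_inj e)
    have hsub : T.image hz ⊆ (Finset.Ico (n + 1 - L) (n + 1 - L + L)).filter
        (fun z => ∀ f, z ≡ hz y [MOD pr f ^ e f]) := ?_
    · refine (Finset.card_le_card hsub).trans ?_
      exact le_trans (le_of_eq (by congr)) hcl
    intro z hz'
    rw [Finset.mem_image] at hz'
    obtain ⟨w, hw, rfl⟩ := hz'
    have hm := mem_YY.mp (hT hw)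
    rw [Finset.mem_filter, Finset.mem_Ico]
    refine ⟨?_, ?_⟩
    · have h1 : hz w ≤ n := hm.1
      have h2 : n < hz w + L := hm.2.2.2.2.2.1
      omega
    · intro f
      show hz w ≡ hz y [MOD pr f ^ e f]
      by_cases h1 : f ∈ G
      · have h2 : e f = cnt f (sl s) := by
          rw [he]
          simp only [h1, if_true]
        rw [h2]
        have h3 := congA hyY (hT hw) (hc y hy w hw) (hG f h1).2
        have h4 := congA hyY hyY (hc y hy y hy) (hG f h1).2
        have h5 : hx1 w f = hx1 y f := ((hc y hy w hw).1 f (hG f h1).1).symm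
        rw [h5] at h3
        exact h3.trans h4.symm
      · by_cases h2 : f ∈ G'
        · have h3 : e f = cnt f (sl s') := by
            rw [he]
            simp only [h1, h2, if_true, if_false]
          rw [h3]
          have h4 := congB hyY (hT hw) (hc y hy w hw) (hG' f h2).2
          have h5 := congB hyY hyY (hc y hy y hy) (hG' f h2).2
          have h6 : hx2 w f = hx2 y f := ((hc y hy w hw).2.1 f (hG' f h2).1).symm
          rw [h6, add_assoc] at h4
          rw [add_assoc] at h5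
          exact modEq_of_add h4 h5
        · have h3 : e f = 0 := by
            rw [he]
            simp only [h1, h2, if_false]
          rw [h3, pow_zero]
          exact Nat.modEq_one
  have hprod : ((∏ f, pr f ^ e f : ℕ) : ℝ) =
      Real.exp (∑ f ∈ G, al f (sl s) + ∑ f ∈ G', al f (sl s')) := by
    have h1 : ∑ f ∈ G, al f (sl s) + ∑ f ∈ G', al f (sl s') =
        ∑ f, (e f : ℝ) * Real.log (pr f) := by
      have h2 : ∑ f ∈ G, al f (sl s) = ∑ f, if f ∈ G then al f (sl s) else 0 := by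
        rw [Finset.sum_ite_mem, Finset.univ_inter]
      have h3 : ∑ f ∈ G', al f (sl s') = ∑ f, if f ∈ G' then al f (sl s') else 0 := by
        rw [Finset.sum_ite_mem, Finset.univ_inter]
      rw [h2, h3, ← Finset.sum_add_distrib]
      refine Finset.sum_congr rfl (fun f _ => ?_)
      rw [he]
      by_cases h4 : f ∈ G
      · have h5 : f ∉ G' := fun h5 => Finset.disjoint_left.mp hdis h4 h5
        simp only [h4, h5, if_true, if_false, add_zero]
        rfl
      · by_cases h5 : f ∈ G'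
        · simp only [h4, h5, if_true, if_false, zero_add]
          rfl
        · simp only [h4, h5, if_false, add_zero, Nat.cast_zero, zero_mul]
    rw [h1, Real.exp_sum]
    push_cast
    refine Finset.prod_congr rfl (fun f _ => ?_)
    rw [Real.exp_nat_mul, Real.exp_log (by exact_mod_cast (pr_prime f).pos)]
  have hle : L ≤ ∏ f, pr f ^ e f := by
    have h1 : (L : ℝ) ≤ ((∏ f, pr f ^ e f : ℕ) : ℝ) := by
      rw [hprod]
      exact hN.trans (Real.exp_le_exp.mpr h)
    exact_mod_cast h1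
  have h2 : L / (∏ f, pr f ^ e f) ≤ 1 := Nat.div_le_of_le_mul (by rw [mul_one]; exact hle)
  rw [← Finset.card_image_of_injOn hinj]
  omega

/-- V1: `x f` constant, `x' f` not -/
theorem void1 {s s' n : ℕ} (hss : sl s' ≤ sl s) {C C' : Finset (Fin 3)} (f : Fin 3)
    (hA : f ∉ frs (sl s) C) (hB : f ∉ frs (sl s') C') (h1 : f ∈ C) (h2 : f ∉ C') :
    VoidC s s' n (10 ^ 7) C C' := by
  apply void_prod hss f hA hB (Or.inr h2)
  simp [te, h1]

/-- V2: `x' f` constant, `x f` not -/
theorem void2 {s s' n : ℕ} (hss : sl s' ≤ sl s) {C C' : Finset (Fin 3)} (f : Fin 3)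
    (hA : f ∉ frs (sl s) C) (hB : f ∉ frs (sl s') C') (h1 : f ∉ C) (h2 : f ∈ C')
    (h : al f (sl s) ≤ 2 * al f (sl s')) : VoidC s s' n (10 ^ 7) C C' := by
  apply void_prod hss f hA hB (Or.inl h1)
  simp only [te, h1, h2, decide_true, decide_false, Bool.false_eq_true, if_false, if_true]
  apply max_le le_rfl
  linarith

/-- V3: both distinct, the family is static -/
theorem void3 {s s' n : ℕ} (hss : sl s' ≤ sl s) {C C' : Finset (Fin 3)} (f : Fin 3)
    (hA : f ∉ frs (sl s) C) (hB : f ∉ frs (sl s') C') (h1 : f ∉ C) (h2 : f ∉ C')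
    (h : cnt f (sl s) = cnt f (sl s')) : VoidC s s' n (10 ^ 7) C C' := by
  apply void_prod hss f hA hB (Or.inl h1)
  simp only [te, h1, h2, decide_false, Bool.false_eq_true, if_false]
  unfold al
  rw [h, sub_self, zero_div]

/-- V4: `z` is unique -/
theorem void4 {s s' n : ℕ} {C C' : Finset (Fin 3)}
    (h : Real.log (Nj (sk (s' + 1))) ≤ ∑ f, if f ∈ C ∧ f ∉ frs (sl s) C then al f (sl s)
      else if f ∈ C' ∧ f ∉ frs (sl s') C' then al f (sl s') else 0) : VoidC s s' n 2 C C' := by
  classical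
  refine void_z (Finset.univ.filter (fun f => f ∈ C ∧ f ∉ frs (sl s) C))
    (Finset.univ.filter (fun f => ¬ (f ∈ C ∧ f ∉ frs (sl s) C) ∧ f ∈ C' ∧ f ∉ frs (sl s') C'))
    ?_ ?_ ?_ (Real.log (Nj (sk (s' + 1)))) ?_ ?_
  · rw [Finset.disjoint_left]
    intro f hf hf'
    rw [Finset.mem_filter] at hf hf'
    exact hf'.2.1 hf.2
  · intro f hf
    exact (Finset.mem_filter.mp hf).2
  · intro f hf
    exact (Finset.mem_filter.mp hf).2.2
  · rw [Real.exp_log (by exact_mod_cast Nj_pos _)]
  · refine h.trans (le_of_eq ?_)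
    rw [Finset.sum_filter, Finset.sum_filter, ← Finset.sum_add_distrib]
    refine Finset.sum_congr rfl (fun f _ => ?_)
    by_cases h1 : f ∈ C ∧ f ∉ frs (sl s) C
    · rw [if_pos h1, if_pos h1, if_neg (fun h2 => h2.1 h1), add_zero]
    · rw [if_neg h1, if_neg h1, zero_add]
      by_cases h2 : f ∈ C' ∧ f ∉ frs (sl s') C'
      · rw [if_pos h2, if_pos ⟨h1, h2⟩]
      · rw [if_neg h2, if_neg (fun h3 => h2 h3.2)]

/-- a choice of modes with a small exponent makes the pattern rare -/
theorem rareC_of_mode {s s' : ℕ} (hss : sl s' ≤ sl s) {C C' : Finset (Fin 3)} (md : Fin 3 → Mo)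
    (hmd : ∀ f, okM (f ∉ frs (sl s) C) (f ∉ frs (sl s') C') (md f)) (v v' N c : ℝ)
    (hv : (vhi s : ℝ) ≤ Real.exp v) (hv' : (vhi s' : ℝ) ≤ Real.exp v')
    (hN : (Nj (sk (s' + 1)) : ℝ) ≤ Real.exp N)
    (h : 146 + v + v' + ∑ f, te (decide (f ∈ C)) (decide (f ∈ C')) (al f (sl s))
        (al f (sl s')) (md f) + max 0 (N - ∑ f, me (al f (sl s)) (al f (sl s')) (md f)) -
        ∑ f ∈ frs (sl s) C, al f (se s) - ∑ f ∈ frs (sl s') C', al f (se s') ≤ -c) (n : ℕ) :
    RareC s s' n (Real.exp (-c)) C C' :=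
  rare_of_mode hss md hmd v v' N c hv hv' hN h n

end Pool.Agent.Helper98.T4
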