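import Pool.Agent.Helper25.T4.Assemble
import Pool.Agent.Helper29.T4.Local
import Pool.Agent.Helper3.T4.Pairs

/-!
# T4', far pairs: the number of hits compatible with a given hit

For every family a mode is chosen; the bound is in exact logarithmic units.
-/

namespace Pool.Agent.Helper98.T4

open Finset Pool.Agent.Helper27.T4 Pool.Agent.Helper5.ET Pool.Agent.Helper25.T4
  Pool.Agent.Helper29.T4

/-- the index as a natural number, at the level `sl s` -/
noncomputable def lam (s : ℕ) (f : Fin 3) (x : ℕ) : ℕ := (Lg (pr f) (cnt f (sl s)) x).val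

/-- the primes of the family `f` in the state `s` -/
def UU (s : ℕ) (f : Fin 3) : Finset ℕ := (range (pr f ^ cnt f (sl s))).filter
    (fun y => y.Prime ∧ y.Coprime (pr f) ∧ y ^ 2 < pr f ^ cnt f (sl s))

/-- the choices for the coordinate `f`: one if it is constant -/
def Uc (s : ℕ) (C : Finset (Fin 3)) (x : Fin 3 → ℕ) (f : Fin 3) : Finset ℕ :=
  if f ∈ C then {x f} else UU s f

theorem mem_XX_UU {s : ℕ} {x : Fin 3 → ℕ} (hx : x ∈ XX s) (f : Fin 3) : x f ∈ UU s f := by
  unfold XX at hx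
  rw [Fintype.mem_piFinset] at hx
  exact hx f

theorem Uc_sub {s : ℕ} {x : Fin 3 → ℕ} (hx : x ∈ XX s) (C : Finset (Fin 3)) (f : Fin 3) :
    Uc s C x f ⊆ UU s f := by
  unfold Uc
  split_ifs
  · intro y hy
    rw [Finset.mem_singleton] at hy
    rw [hy]
    exact mem_XX_UU hx f
  · exact Finset.Subset.refl _

theorem pow_ne (f : Fin 3) (a : ℕ) : NeZero (pr f ^ a) := ⟨(pow_pos (pr_prime f).pos _).ne'⟩

theorem lam_cast (s : ℕ) (f : Fin 3) (x : ℕ) :
    ((lam s f x : ℕ) : ZMod (pr f ^ cnt f (sl s))) = Lg (pr f) (cnt f (sl s)) x := by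
  have := pow_ne f (cnt f (sl s))
  exact ZMod.natCast_zmod_val _

/-- the reduction of the equality of hash values to the level `sl s` -/
theorem vl_red {s : ℕ} {f : Fin 3} {c c' x x' : ℕ} (hx : x.Coprime (pr f))
    (hx' : x'.Coprime (pr f)) (h : vl s f c x = vl s f c' x') :
    (c : ZMod (pr f ^ cnt f (sl s))) - Lg (pr f) (cnt f (sl s)) x =
      (c' : ZMod (pr f ^ cnt f (sl s))) - Lg (pr f) (cnt f (sl s)) x' := by
  have hne := pow_ne f (cnt f (se s))
  have hle := cnt_mono f (sl_le_se s)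
  have h1 := ZMod.val_injective _ h
  have h2 := congrArg (ZMod.castHom (pow_dvd_pow (pr f) hle) (ZMod (pr f ^ cnt f (sl s)))) h1
  rwa [map_sub, map_sub, map_natCast, map_natCast,
    Lg_red (pr_prime f) (pr_ne_two f) _ _ _ hx hle,
    Lg_red (pr_prime f) (pr_ne_two f) _ _ _ hx' hle] at h2

theorem cast_cA {s s' n : ℕ} {y : Hit} (hy : y ∈ YY s s' n) (f : Fin 3) :
    ((cA s y : ℕ) : ZMod (pr f ^ cnt f (sl s))) = (hz y : ZMod (pr f ^ cnt f (sl s))) := by
  have h := (mem_YY.mp hy).2.2.2.2.2.2.1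
  have h0 : ((Nj (sl s) * hv1 y : ℕ) : ZMod (pr f ^ cnt f (sl s))) = 0 := by
    rw [ZMod.natCast_eq_zero_iff]
    exact (pow_dvd_NN pr (av (sl s)) f).mul_right _
  unfold cA
  rw [Nat.cast_sub h, h0, sub_zero]

theorem cast_cB {s s' n : ℕ} {y : Hit} (hy : y ∈ YY s s' n) (f : Fin 3) :
    ((cB s' n y : ℕ) : ZMod (pr f ^ cnt f (sl s'))) =
      (n : ZMod (pr f ^ cnt f (sl s'))) - (hz y : ZMod (pr f ^ cnt f (sl s'))) := by
  have h := (mem_YY.mp hy).2.2.2.2.2.2.2
  have h1 := (mem_YY.mp hy).1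
  have h0 : ((Nj (sl s') * hv2 y : ℕ) : ZMod (pr f ^ cnt f (sl s'))) = 0 := by
    rw [ZMod.natCast_eq_zero_iff]
    exact (pow_dvd_NN pr (av (sl s')) f).mul_right _
  unfold cB
  rw [Nat.cast_sub h, h0, sub_zero, Nat.cast_sub h1]

/-- the residue belonging to the side of `a` -/
noncomputable def rA (s : ℕ) (f : Fin 3) (y : Hit) : ℕ :=
  ((hz y : ZMod (pr f ^ cnt f (sl s))) - Lg (pr f) (cnt f (sl s)) (hx1 y f)).val

/-- the residue belonging to the side of `a'` -/
noncomputable def rB (s' n : ℕ) (f : Fin 3) (y : Hit) : ℕ :=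
  ((n : ZMod (pr f ^ cnt f (sl s'))) - (hz y : ZMod (pr f ^ cnt f (sl s'))) -
    Lg (pr f) (cnt f (sl s')) (hx2 y f)).val

theorem congA {s s' n : ℕ} {C C' : Finset (Fin 3)} {y z : Hit} (hy : y ∈ YY s s' n)
    (hz' : z ∈ YY s s' n) (h : Cpt s s' n C C' y z) {f : Fin 3} (hf : f ∉ frs (sl s) C) :
    hz z ≡ lam s f (hx1 z f) + rA s f y [MOD pr f ^ cnt f (sl s)] := by
  have h1 := vl_red (XX_coprime (mem_YY.mp hy).2.2.2.1 f) (XX_coprime (mem_YY.mp hz').2.2.2.1 f)
    (h.2.2.1 f hf)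
  rw [cast_cA hy, cast_cA hz'] at h1
  have := pow_ne f (cnt f (sl s))
  rw [← ZMod.natCast_eq_natCast_iff]
  push_cast
  rw [lam_cast]
  unfold rA
  rw [ZMod.natCast_zmod_val, h1]
  ring

theorem congB {s s' n : ℕ} {C C' : Finset (Fin 3)} {y z : Hit} (hy : y ∈ YY s s' n)
    (hz' : z ∈ YY s s' n) (h : Cpt s s' n C C' y z) {f : Fin 3} (hf : f ∉ frs (sl s') C') :
    n ≡ hz z + lam s' f (hx2 z f) + rB s' n f y [MOD pr f ^ cnt f (sl s')] := by
  have h1 := vl_red (XX_coprime (mem_YY.mp hy).2.2.2.2.1 f)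
    (XX_coprime (mem_YY.mp hz').2.2.2.2.1 f) (h.2.2.2 f hf)
  rw [cast_cB hy, cast_cB hz'] at h1
  have := pow_ne f (cnt f (sl s'))
  rw [← ZMod.natCast_eq_natCast_iff]
  push_cast
  rw [lam_cast]
  unfold rB
  rw [ZMod.natCast_zmod_val, h1]
  ring

/-- the local data of the family `f` -/
noncomputable def DD (s s' n : ℕ) (C C' : Finset (Fin 3)) (y : Hit) (f : Fin 3) :
    ℕ → Finset (ℕ × ℕ) :=
  Dd (Uc s C (hx1 y) f) (Uc s' C' (hx2 y) f) (f ∉ frs (sl s) C) (f ∉ frs (sl s') C') (lam s f)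
    (lam s' f) (pr f ^ cnt f (sl s)) (pr f ^ cnt f (sl s')) (rA s f y) (rB s' n f y) n

open Classical in
theorem count_loc {s s' n : ℕ} {C C' : Finset (Fin 3)} {y : Hit} (hy : y ∈ YY s s' n)
    (t κ μ : Fin 3 → ℕ) (hμ : ∀ f, 0 < μ f) (hcop : Pairwise (Function.onFun Nat.Coprime μ))
    (h : ∀ f, LocOK (DD s s' n C C' y f) (t f) (κ f) (μ f)) :
    ((YY s s' n).filter (Cpt s s' n C C' y)).card ≤
      vhi s * (vhi s' * ((∏ f, κ f) * (∏ f, t f) * (Nj (sk (s' + 1)) / (∏ f, μ f) + 1))) := by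
  set L := Nj (sk (s' + 1)) with hL
  have hloc := card_loc (n + 1 - L) L (DD s s' n C C' y) t κ μ hμ hcop h
  refine le_trans (Finset.card_le_card_of_injOn
    (t := range (vhi s) ×ˢ (range (vhi s') ×ˢ ((Finset.Ico (n + 1 - L) (n + 1 - L + L)).sigma
      (fun z => Fintype.piFinset (fun f => DD s s' n C C' y f z)))))
    (fun z => (hv1 z, hv2 z, (⟨hz z, fun f => (hx1 z f, hx2 z f)⟩ :
      (_ : ℕ) × (Fin 3 → ℕ × ℕ)))) ?_ ?_) ?_
  · intro z hz'
    rw [Finset.mem_coe, Finset.mem_filter] at hz'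
    obtain ⟨hzY, hzC⟩ := hz'
    have hm := mem_YY.mp hzY
    rw [Finset.mem_coe, Finset.mem_product, Finset.mem_product, Finset.mem_range,
      Finset.mem_range, Finset.mem_sigma, Finset.mem_Ico, Fintype.mem_piFinset]
    refine ⟨hm.2.1, hm.2.2.1, ?_, ?_⟩
    · have h1 : hz z ≤ n := hm.1
      have h2 : n < hz z + L := hm.2.2.2.2.2.1
      show n + 1 - L ≤ hz z ∧ hz z < n + 1 - L + L
      omega
    · intro f
      show (hx1 z f, hx2 z f) ∈ DD s s' n C C' y f (hz z)
      unfold DD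
      rw [mem_Dd]
      refine ⟨?_, ?_, fun hf => congA hy hzY hzC hf, fun hf => congB hy hzY hzC hf⟩
      · show hx1 z f ∈ Uc s C (hx1 y) f
        unfold Uc
        split_ifs with hf
        · rw [Finset.mem_singleton]
          exact (hzC.1 f hf).symm
        · exact mem_XX_UU hm.2.2.2.1 f
      · show hx2 z f ∈ Uc s' C' (hx2 y) f
        unfold Uc
        split_ifs with hf
        · rw [Finset.mem_singleton]
          exact (hzC.2.1 f hf).symm
        · exact mem_XX_UU hm.2.2.2.2.1 f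
  · rintro ⟨z, v, v', x, x'⟩ _ ⟨z2, v2, v2', x2, x2'⟩ _ he
    simp only [Prod.mk.injEq, Sigma.mk.injEq] at he
    obtain ⟨h1, h2, h3, h4⟩ := he
    have h5 := eq_of_heq h4
    have h6 : x = x2 := by
      funext f
      exact (Prod.mk.inj (congrFun h5 f)).1
    have h7 : x' = x2' := by
      funext f
      exact (Prod.mk.inj (congrFun h5 f)).2
    have h1' : v = v2 := h1
    have h2' : v' = v2' := h2
    have h3' : z = z2 := h3
    rw [h1', h2', h3', h6, h7]
  · rw [Finset.card_product, Finset.card_product, Finset.card_range, Finset.card_range]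
    exact Nat.mul_le_mul_left _ (Nat.mul_le_mul_left _ hloc)

/-! ## modes -/

/-- the modes of one family -/
inductive Mo
  | free
  | mA
  | mB
  | afB
  | afA
  | half
  | aft
  | prod
  deriving DecidableEq

/-- when a mode is allowed -/
def okM (bA bB : Prop) : Mo → Prop
  | Mo.free => True
  | Mo.mA => bA
  | Mo.mB => bB
  | Mo.afB => bB
  | Mo.afA => bA
  | Mo.half => bA ∧ bB
  | Mo.aft => bA ∧ bB
  | Mo.prod => bA ∧ bB

/-- size of the counted part; `c`, `c'`: constant coordinates; `u`, `v`: sizes of the two moduli -/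
noncomputable def te (c c' : Bool) (u v : ℝ) : Mo → ℝ
  | Mo.free => (if c then 0 else u / 2) + (if c' then 0 else v / 2)
  | Mo.mA => (if c then 0 else u / 2) + (if c' then 0 else v / 2)
  | Mo.mB => (if c then 0 else u / 2) + (if c' then 0 else v / 2)
  | Mo.afB => if c then 0 else u / 2
  | Mo.afA => if c' then 0 else v / 2
  | Mo.half => if c' then 0 else v / 2
  | Mo.aft => 0
  | Mo.prod => if c then 0 else if c' then max 0 (u / 2 - v) else (u - v) / 2

/-- size of the modulus of a mode -/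
def me (u v : ℝ) : Mo → ℝ
  | Mo.free => 0
  | Mo.mA => u
  | Mo.mB => v
  | Mo.afB => 0
  | Mo.afA => 0
  | Mo.half => v
  | Mo.aft => 0
  | Mo.prod => u

/-- the exact size of the modulus of the family `f` at the position `j` -/
noncomputable def al (f : Fin 3) (j : ℕ) : ℝ := cnt f j * Real.log (pr f)

theorem exp_al (f : Fin 3) (j : ℕ) : Real.exp (al f j) = (pr f : ℝ) ^ cnt f j := by
  unfold al
  rw [Real.exp_nat_mul, Real.exp_log (by exact_mod_cast (pr_prime f).pos)]

theorem card_UU (s : ℕ) (f : Fin 3) : ((UU s f).card : ℝ) ≤ Real.exp (al f (sl s) / 2) := by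
  have h1 : (UU s f).card ≤ Nat.sqrt (pr f ^ cnt f (sl s)) := by
    calc (UU s f).card ≤ ((range (Nat.sqrt (pr f ^ cnt f (sl s)) + 1)).erase 0).card := by
          apply Finset.card_le_card
          intro x hx
          unfold UU at hx
          rw [Finset.mem_filter] at hx
          rw [Finset.mem_erase, Finset.mem_range, Nat.lt_succ_iff]
          refine ⟨hx.2.1.ne_zero, ?_⟩
          rw [Nat.le_sqrt, ← pow_two]
          exact hx.2.2.2.le
      _ = Nat.sqrt (pr f ^ cnt f (sl s)) := by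
          rw [Finset.card_erase_of_mem (by simp), Finset.card_range]
          rfl
  have h2 : ((Nat.sqrt (pr f ^ cnt f (sl s)) : ℕ) : ℝ) ^ 2 ≤ (pr f : ℝ) ^ cnt f (sl s) := by
    exact_mod_cast Nat.sqrt_le' (pr f ^ cnt f (sl s))
  have h3 : Real.exp (al f (sl s) / 2) ^ 2 = (pr f : ℝ) ^ cnt f (sl s) := by
    rw [← exp_al, ← Real.exp_nat_mul]
    congr 1
    push_cast
    ring
  rw [← h3] at h2
  have h4 := (sq_le_sq₀ (Nat.cast_nonneg _) (Real.exp_pos _).le).mp h2
  exact (Nat.cast_le.mpr h1).trans h4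

theorem card_Uc (s : ℕ) (C : Finset (Fin 3)) (x : Fin 3 → ℕ) (f : Fin 3) :
    ((Uc s C x f).card : ℝ) ≤ Real.exp (if decide (f ∈ C) then 0 else al f (sl s) / 2) := by
  unfold Uc
  split_ifs with h1 h2 h2
  · simp
  · exact absurd (decide_eq_true h1) h2
  · exact absurd (of_decide_eq_true h2) h1
  · exact card_UU s f

theorem pr_le (f : Fin 3) : pr f ≤ 1000037 := by
  fin_cases f <;> simp [pr]

theorem card_fiber {s : ℕ} {f : Fin 3} {U : Finset ℕ} (hU : U ⊆ UU s f) (t : ℕ) :
    (U.filter (fun x => lam s f x ≡ t [MOD pr f ^ cnt f (sl s)])).card ≤ 1000037 := by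
  refine le_trans (Finset.card_le_card ?_) ((card_Lg_le (pr_prime f) (pr_ne_two f)
    (cnt f (sl s)) (t : ZMod (pr f ^ cnt f (sl s)))).trans
    ((Nat.sub_le _ _).trans (pr_le f)))
  intro x hx
  rw [Finset.mem_filter] at hx ⊢
  have h1 := hU hx.1
  unfold UU at h1
  rw [Finset.mem_filter, Finset.mem_range] at h1
  refine ⟨?_, h1.2.2.1, ?_⟩
  · rw [Finset.mem_range]
    exact h1.1.trans_le (Nat.pow_le_pow_right (pr_prime f).pos (Nat.le_succ _))
  · rw [← lam_cast]
    exact (ZMod.natCast_eq_natCast_iff _ _ _).mpr hx.2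

theorem lam_red {s s' : ℕ} (hss : sl s' ≤ sl s) {f : Fin 3} {x : ℕ} (hx : x ∈ UU s f) :
    lam s f x ≡ lam s' f x [MOD pr f ^ cnt f (sl s')] := by
  have hc : x.Coprime (pr f) := by
    unfold UU at hx
    exact (Finset.mem_filter.mp hx).2.2.1
  have hle := cnt_mono f hss
  have h2 := Lg_red (pr_prime f) (pr_ne_two f) _ _ x hc hle
  rw [← lam_cast, map_natCast] at h2
  rw [← ZMod.natCast_eq_natCast_iff, h2, lam_cast]

/-- the number of pairs with a given product -/
theorem card_prod {s s' : ℕ} (hss : sl s' ≤ sl s) {C C' : Finset (Fin 3)} {x x' : Fin 3 → ℕ}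
    (hx : x ∈ XX s) (hx' : x' ∈ XX s') (f : Fin 3) : ∃ P : ℕ,
    (P : ℝ) ≤ 10 ^ 7 * Real.exp (te (decide (f ∈ C)) (decide (f ∈ C')) (al f (sl s))
      (al f (sl s')) Mo.prod) ∧
    ∀ t, ((Uc s C x f ×ˢ Uc s' C' x' f).filter
      (fun q => lam s' f q.1 + lam s' f q.2 ≡ t [MOD pr f ^ cnt f (sl s')])).card ≤ P := by
  have hp := pr_prime f
  have hp2 := pr_ne_two f
  have hpl := pr_le f
  have hle := cnt_mono f hss
  have hL : 0 < Real.log (pr f) := Real.log_pos (by exact_mod_cast hp.one_lt)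
  have hsum : ∀ (a b : ℕ) (t : ℕ), a + b ≡ t [MOD pr f ^ cnt f (sl s')] →
      ((a : ℕ) : ZMod (pr f ^ cnt f (sl s'))) + (b : ℕ) = (t : ZMod (pr f ^ cnt f (sl s'))) := by
    intro a b t h
    rw [← Nat.cast_add]
    exact (ZMod.natCast_eq_natCast_iff _ _ _).mpr h
  by_cases h1 : f ∈ C
  · -- the first coordinate is constant
    refine ⟨1000037, ?_, ?_⟩
    · simp only [h1, decide_true, te, if_true, Real.exp_zero]
      norm_num
    · intro t
      refine le_trans (Finset.card_le_card_of_injOn (fun q : ℕ × ℕ => q.2)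
        (t := (UU s' f).filter (fun y => y.Coprime (pr f) ∧
          Lg (pr f) (cnt f (sl s')) y = (t : ZMod (pr f ^ cnt f (sl s'))) -
            Lg (pr f) (cnt f (sl s')) (x f))) ?_ ?_) ?_
      · intro q hq
        rw [Finset.mem_coe, Finset.mem_filter, Finset.mem_product] at hq
        obtain ⟨⟨hq1, hq2⟩, hq3⟩ := hq
        unfold Uc at hq1
        rw [if_pos h1, Finset.mem_singleton] at hq1
        have hq4 := Uc_sub hx' C' f hq2
        rw [Finset.mem_coe, Finset.mem_filter]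
        refine ⟨hq4, ?_, ?_⟩
        · unfold UU at hq4
          exact (Finset.mem_filter.mp hq4).2.2.1
        · have h5 := hsum _ _ _ hq3
          rw [lam_cast, lam_cast, hq1] at h5
          rw [← h5]
          ring
      · intro q hq r hr h
        rw [Finset.mem_coe, Finset.mem_filter, Finset.mem_product] at hq hr
        have h2 := hq.1.1
        have h3 := hr.1.1
        unfold Uc at h2 h3
        rw [if_pos h1, Finset.mem_singleton] at h2 h3
        exact Prod.ext (h2.trans h3.symm) h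
      · refine le_trans (Finset.card_le_card ?_) ((card_Lg_le hp hp2 (cnt f (sl s'))
          ((t : ZMod (pr f ^ cnt f (sl s'))) - Lg (pr f) (cnt f (sl s')) (x f))).trans
          ((Nat.sub_le _ _).trans hpl))
        intro y hy
        rw [Finset.mem_filter] at hy ⊢
        refine ⟨?_, hy.2⟩
        have h4 := hy.1
        unfold UU at h4
        rw [Finset.mem_filter, Finset.mem_range] at h4
        rw [Finset.mem_range]
        exact h4.1.trans_le (Nat.pow_le_pow_right hp.pos (Nat.le_succ _))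
  by_cases h2 : f ∈ C'
  · refine ⟨(pr f - 1) * pr f ^ ((cnt f (sl s) - 2 * cnt f (sl s')) / 2), ?_, ?_⟩
    · simp only [h1, h2, decide_true, decide_false, te, if_true, Bool.false_eq_true, if_false]
      push_cast
      have h3 : ((pr f - 1 : ℕ) : ℝ) ≤ 10 ^ 7 := by
        have : pr f - 1 ≤ 10 ^ 7 := by omega
        exact_mod_cast this
      refine mul_le_mul h3 ?_ (by positivity) (by norm_num)
      rw [← Real.exp_log (show (0 : ℝ) < pr f by exact_mod_cast hp.pos), ← Real.exp_nat_mul]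
      apply Real.exp_le_exp.mpr
      rcases Nat.lt_or_ge (cnt f (sl s)) (2 * cnt f (sl s')) with h4 | h4
      · have h5 : (cnt f (sl s) - 2 * cnt f (sl s')) / 2 = 0 := by omega
        rw [h5, Nat.cast_zero, zero_mul]
        exact le_max_left _ _
      · refine le_trans ?_ (le_max_right _ _)
        have h5 : (((cnt f (sl s) - 2 * cnt f (sl s')) / 2 : ℕ) : ℝ) ≤
            ((cnt f (sl s) : ℝ) - 2 * cnt f (sl s')) / 2 := by
          have h6 : 2 * ((cnt f (sl s) - 2 * cnt f (sl s')) / 2) + 2 * cnt f (sl s') ≤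
              cnt f (sl s) := by omega
          have h7 : (2 : ℝ) * (((cnt f (sl s) - 2 * cnt f (sl s')) / 2 : ℕ) : ℝ) +
              2 * (cnt f (sl s') : ℝ) ≤ cnt f (sl s) := by exact_mod_cast h6
          linarith
        unfold al
        nlinarith
    · intro t
      refine le_trans (Finset.card_le_card_of_injOn (fun q : ℕ × ℕ => q.1)
        (t := (UU s f).filter (fun y => Lg (pr f) (cnt f (sl s')) y =
          (t : ZMod (pr f ^ cnt f (sl s'))) - Lg (pr f) (cnt f (sl s')) (x' f))) ?_ ?_) ?_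
      · intro q hq
        rw [Finset.mem_coe, Finset.mem_filter, Finset.mem_product] at hq
        obtain ⟨⟨hq1, hq2⟩, hq3⟩ := hq
        unfold Uc at hq2
        rw [if_pos h2, Finset.mem_singleton] at hq2
        rw [Finset.mem_coe, Finset.mem_filter]
        refine ⟨Uc_sub hx C f hq1, ?_⟩
        have h5 := hsum _ _ _ hq3
        rw [lam_cast, lam_cast, hq2] at h5
        rw [← h5]
        ring
      · intro q hq r hr h
        rw [Finset.mem_coe, Finset.mem_filter, Finset.mem_product] at hq hr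
        have h3 := hq.1.2
        have h4 := hr.1.2
        unfold Uc at h3 h4
        rw [if_pos h2, Finset.mem_singleton] at h3 h4
        exact Prod.ext h (h3.trans h4.symm)
      · apply Pool.Agent.Helper3.T4.card_single_le hp hp2 (cnt f (sl s)) (cnt f (sl s'))
          ((t : ZMod (pr f ^ cnt f (sl s'))) - Lg (pr f) (cnt f (sl s')) (x' f))
        intro y hy
        rw [Finset.mem_filter] at hy
        have h4 := hy.1
        unfold UU at h4
        rw [Finset.mem_filter] at h4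
        exact ⟨h4.2.2.1, h4.2.2.2, hy.2⟩
  · refine ⟨2 * ((pr f - 1) * pr f ^ ((cnt f (sl s) - cnt f (sl s')) / 2)), ?_, ?_⟩
    · simp only [h1, h2, decide_false, te, Bool.false_eq_true, if_false]
      push_cast
      have h3 : 2 * ((pr f - 1 : ℕ) : ℝ) ≤ 10 ^ 7 := by
        have : 2 * (pr f - 1) ≤ 10 ^ 7 := by omega
        exact_mod_cast this
      rw [← mul_assoc]
      refine mul_le_mul h3 ?_ (by positivity) (by norm_num)
      rw [← Real.exp_log (show (0 : ℝ) < pr f by exact_mod_cast hp.pos), ← Real.exp_nat_mul]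
      apply Real.exp_le_exp.mpr
      have h5 : (((cnt f (sl s) - cnt f (sl s')) / 2 : ℕ) : ℝ) ≤
          ((cnt f (sl s) : ℝ) - cnt f (sl s')) / 2 := by
        have h6 : 2 * ((cnt f (sl s) - cnt f (sl s')) / 2) + cnt f (sl s') ≤
            cnt f (sl s) := by omega
        have h7 : (2 : ℝ) * (((cnt f (sl s) - cnt f (sl s')) / 2 : ℕ) : ℝ) +
            (cnt f (sl s') : ℝ) ≤ cnt f (sl s) := by exact_mod_cast h6
        linarith
      unfold al
      nlinarith
    · intro t
      apply Pool.Agent.Helper3.T4.card_pairs_le hp hp2 (cnt f (sl s)) (cnt f (sl s')) hle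
        (t : ZMod (pr f ^ cnt f (sl s')))
      intro q hq
      rw [Finset.mem_filter, Finset.mem_product] at hq
      obtain ⟨⟨hq1, hq2⟩, hq3⟩ := hq
      have hq4 := Uc_sub hx C f hq1
      have hq5 := Uc_sub hx' C' f hq2
      unfold UU at hq4 hq5
      rw [Finset.mem_filter] at hq4 hq5
      refine ⟨hq4.2.1, hq5.2.1, hq4.2.2.1, hq5.2.2.1, hq4.2.2.2, hq5.2.2.2, ?_⟩
      have h5 := hsum _ _ _ hq3
      rwa [lam_cast, lam_cast] at h5

theorem exp_ite_add (c c' : Bool) (u v : ℝ) :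
    Real.exp (if c then 0 else u) * Real.exp (if c' then 0 else v) =
      Real.exp ((if c then 0 else u) + (if c' then 0 else v)) := (Real.exp_add _ _).symm

/-- every allowed mode gives a local bound -/
theorem loc_mode {s s' n : ℕ} (hss : sl s' ≤ sl s) {C C' : Finset (Fin 3)} {y : Hit}
    (hy : y ∈ YY s s' n) (f : Fin 3) (m : Mo)
    (hm : okM (f ∉ frs (sl s) C) (f ∉ frs (sl s') C') m) : ∃ t κ e : ℕ,
    LocOK (DD s s' n C C' y f) t κ (pr f ^ e) ∧
    (t : ℝ) ≤ 10 ^ 7 * Real.exp (te (decide (f ∈ C)) (decide (f ∈ C')) (al f (sl s))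
      (al f (sl s')) m) ∧ κ ≤ 10 ^ 14 ∧
    (e : ℝ) * Real.log (pr f) = me (al f (sl s)) (al f (sl s')) m := by
  have hx := (mem_YY.mp hy).2.2.2.1
  have hx' := (mem_YY.mp hy).2.2.2.2.1
  have hU := Uc_sub hx C f
  have hU' := Uc_sub hx' C' f
  have hcU := card_Uc s C (hx1 y) f
  have hcU' := card_Uc s' C' (hx2 y) f
  have hK := fun t => card_fiber hU t
  have hK' := fun t => card_fiber hU' t
  have hbig : ∀ z : ℝ, Real.exp z ≤ 10 ^ 7 * Real.exp z := fun z => by
    have := Real.exp_pos z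
    linarith
  have hprod : (((Uc s C (hx1 y) f).card * (Uc s' C' (hx2 y) f).card : ℕ) : ℝ) ≤
      Real.exp ((if decide (f ∈ C) then 0 else al f (sl s) / 2) +
        (if decide (f ∈ C') then 0 else al f (sl s') / 2)) := by
    rw [← exp_ite_add]
    push_cast
    exact mul_le_mul hcU hcU' (Nat.cast_nonneg _) (Real.exp_pos _).le
  cases m with
  | free =>
    refine ⟨_, 1, 0, by rw [pow_zero]; exact loc_free _ _ _ _ _ _ _ _ _ _ _,
      hprod.trans (hbig _), by norm_num, ?_⟩
    simp [me]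
  | mA =>
    refine ⟨_, 1, cnt f (sl s), loc_A _ _ _ _ _ _ _ _ _ _ _ hm, hprod.trans (hbig _),
      by norm_num, rfl⟩
  | mB =>
    refine ⟨_, 1, cnt f (sl s'), loc_B _ _ _ _ _ _ _ _ _ _ _ hm, hprod.trans (hbig _),
      by norm_num, rfl⟩
  | afB =>
    have hm1 : f ∉ frs (sl s') C' := hm
    refine ⟨_, 1000037, 0, by
      rw [pow_zero]
      exact loc_B_after _ _ _ _ _ _ _ _ _ _ _ hm1 _ hK', hcU.trans (hbig _), by norm_num, ?_⟩
    simp [me]
  | afA =>
    have hm1 : f ∉ frs (sl s) C := hm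
    refine ⟨_, 1000037, 0, by
      rw [pow_zero]
      exact loc_A_after _ _ _ _ _ _ _ _ _ _ _ hm1 _ hK, hcU'.trans (hbig _), by norm_num, ?_⟩
    simp [me]
  | half =>
    exact ⟨_, 1000037, cnt f (sl s'), loc_half _ _ _ _ _ _ _ _ _ _ _ hm.1 hm.2 _ hK,
      hcU'.trans (hbig _), by norm_num, rfl⟩
  | aft =>
    refine ⟨1, 1000037 * 1000037, 0, by
      rw [pow_zero]
      exact loc_after _ _ _ _ _ _ _ _ _ _ _ hm.1 hm.2 _ hK hK', ?_, by norm_num, ?_⟩
    · simp only [te, Real.exp_zero]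
      norm_num
    · simp [me]
  | prod =>
    obtain ⟨P, hP, hP'⟩ := card_prod hss (C := C) (C' := C') hx hx' f
    refine ⟨P, 1, cnt f (sl s), loc_prod _ _ _ _ _ _ _ _ _ _ _ hm.1 hm.2
      (pow_dvd_pow _ (cnt_mono f hss)) ?_ P hP', hP, by norm_num, rfl⟩
    intro x hxx
    exact lam_red hss (hU hxx)

open Classical in
/-- the count for a choice of modes -/
theorem count_mode {s s' n : ℕ} (hss : sl s' ≤ sl s) {C C' : Finset (Fin 3)} {y : Hit}
    (hy : y ∈ YY s s' n) (md : Fin 3 → Mo)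
    (hmd : ∀ f, okM (f ∉ frs (sl s) C) (f ∉ frs (sl s') C') (md f)) :
    (((YY s s' n).filter (Cpt s s' n C C' y)).card : ℝ) ≤ (vhi s : ℝ) * (vhi s' : ℝ) *
      (10 ^ 63 * Real.exp (∑ f, te (decide (f ∈ C)) (decide (f ∈ C')) (al f (sl s))
        (al f (sl s')) (md f)) *
        (Nj (sk (s' + 1)) / Real.exp (∑ f, me (al f (sl s)) (al f (sl s')) (md f)) + 1)) := by
  have h := fun f => loc_mode hss hy f (md f) (hmd f)
  choose t κ e hloc ht hκ he using h
  have h1 := count_loc hy t κ (fun f => pr f ^ e f) (fun f => pow_pos (pr_prime f).pos _)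
    (pw pr_prime pr_inj e) hloc
  have h2 : (∏ f, κ f : ℕ) ≤ (10 ^ 14) ^ 3 := by
    calc (∏ f, κ f : ℕ) ≤ ∏ _f : Fin 3, 10 ^ 14 := Finset.prod_le_prod' (fun f _ => hκ f)
      _ = (10 ^ 14) ^ 3 := by simp
  have h2' : ((∏ f, κ f : ℕ) : ℝ) ≤ 10 ^ 42 := by
    calc ((∏ f, κ f : ℕ) : ℝ) ≤ (((10 ^ 14) ^ 3 : ℕ) : ℝ) := by exact_mod_cast h2
      _ = 10 ^ 42 := by norm_num
  have h3 : ((∏ f, t f : ℕ) : ℝ) ≤ 10 ^ 21 * Real.exp (∑ f, te (decide (f ∈ C))
      (decide (f ∈ C')) (al f (sl s)) (al f (sl s')) (md f)) := by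
    push_cast
    calc (∏ f, (t f : ℝ)) ≤ ∏ f, (10 ^ 7 * Real.exp (te (decide (f ∈ C)) (decide (f ∈ C'))
          (al f (sl s)) (al f (sl s')) (md f))) :=
          Finset.prod_le_prod (fun f _ => Nat.cast_nonneg _) (fun f _ => ht f)
      _ = _ := by
          rw [Finset.prod_mul_distrib, ← Real.exp_sum]
          simp only [Finset.prod_const, Finset.card_univ, Fintype.card_fin]
          norm_num
  have h4 : ((∏ f, pr f ^ e f : ℕ) : ℝ) =
      Real.exp (∑ f, me (al f (sl s)) (al f (sl s')) (md f)) := by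
    rw [Real.exp_sum]
    push_cast
    refine Finset.prod_congr rfl (fun f _ => ?_)
    rw [← he f, Real.exp_nat_mul, Real.exp_log (by exact_mod_cast (pr_prime f).pos)]
  have h5 : ((Nj (sk (s' + 1)) / ∏ f, pr f ^ e f : ℕ) : ℝ) ≤
      Nj (sk (s' + 1)) / Real.exp (∑ f, me (al f (sl s)) (al f (sl s')) (md f)) := by
    rw [← h4]
    exact Nat.cast_div_le
  calc (((YY s s' n).filter (Cpt s s' n C C' y)).card : ℝ)
      ≤ ((vhi s * (vhi s' * ((∏ f, κ f) * (∏ f, t f) *
        (Nj (sk (s' + 1)) / (∏ f, pr f ^ e f) + 1))) : ℕ) : ℝ) := by exact_mod_cast h1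
    _ = (vhi s : ℝ) * (vhi s' : ℝ) * (((∏ f, κ f : ℕ) : ℝ) * ((∏ f, t f : ℕ) : ℝ) *
        (((Nj (sk (s' + 1)) / (∏ f, pr f ^ e f) : ℕ) : ℝ) + 1)) := by
        push_cast
        ring
    _ ≤ _ := by
        apply mul_le_mul_of_nonneg_left _ (by positivity)
        apply mul_le_mul _ (by linarith) (by positivity) (by positivity)
        calc ((∏ f, κ f : ℕ) : ℝ) * ((∏ f, t f : ℕ) : ℝ) ≤ 10 ^ 42 * (10 ^ 21 *
              Real.exp (∑ f, te (decide (f ∈ C)) (decide (f ∈ C')) (al f (sl s))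
                (al f (sl s')) (md f))) :=
              mul_le_mul h2' h3 (Nat.cast_nonneg _) (by norm_num)
          _ = _ := by ring

theorem Wt_exp (s s' : ℕ) (C C' : Finset (Fin 3)) : Wt s s' C C' =
    Real.exp (-((∑ f ∈ frs (sl s) C, al f (se s)) + ∑ f ∈ frs (sl s') C', al f (se s'))) := by
  unfold Wt
  rw [neg_add, Real.exp_add, ← Finset.sum_neg_distrib, ← Finset.sum_neg_distrib, Real.exp_sum,
    Real.exp_sum]
  congr 1
  · refine Finset.prod_congr rfl (fun f _ => ?_)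
    rw [Real.exp_neg, exp_al]
  · refine Finset.prod_congr rfl (fun f _ => ?_)
    rw [Real.exp_neg, exp_al]

open Classical in
/-- a choice of modes with a small exponent makes the pattern rare -/
theorem rare_of_mode {s s' : ℕ} (hss : sl s' ≤ sl s) {C C' : Finset (Fin 3)} (md : Fin 3 → Mo)
    (hmd : ∀ f, okM (f ∉ frs (sl s) C) (f ∉ frs (sl s') C') (md f)) (v v' N c : ℝ)
    (hv : (vhi s : ℝ) ≤ Real.exp v) (hv' : (vhi s' : ℝ) ≤ Real.exp v')
    (hN : (Nj (sk (s' + 1)) : ℝ) ≤ Real.exp N)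
    (h : 146 + v + v' + ∑ f, te (decide (f ∈ C)) (decide (f ∈ C')) (al f (sl s))
        (al f (sl s')) (md f) + max 0 (N - ∑ f, me (al f (sl s)) (al f (sl s')) (md f)) -
        ∑ f ∈ frs (sl s) C, al f (se s) - ∑ f ∈ frs (sl s') C', al f (se s') ≤ -c) :
    Rare s s' (Real.exp (-c)) C C' := by
  intro n y hy
  have h1 := count_mode hss hy md hmd
  set T := ∑ f, te (decide (f ∈ C)) (decide (f ∈ C')) (al f (sl s)) (al f (sl s')) (md f)
  set M := ∑ f, me (al f (sl s)) (al f (sl s')) (md f)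
  rw [Wt_exp]
  have h2 : (Nj (sk (s' + 1)) : ℝ) / Real.exp M + 1 ≤ 2 * Real.exp (max 0 (N - M)) := by
    have h3 : (Nj (sk (s' + 1)) : ℝ) / Real.exp M ≤ Real.exp (max 0 (N - M)) := by
      rw [div_le_iff₀ (Real.exp_pos _), ← Real.exp_add]
      refine hN.trans (Real.exp_le_exp.mpr ?_)
      have := le_max_right 0 (N - M)
      linarith
    have h4 : (1 : ℝ) ≤ Real.exp (max 0 (N - M)) := Real.one_le_exp (le_max_left _ _)
    linarith
  have h3 : (10 : ℝ) ^ 63 * 2 ≤ Real.exp 146 := by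
    have h4 : (2.7182818283 : ℝ) ^ 146 ≤ Real.exp 146 := by
      have h5 := Real.exp_one_gt_d9
      have h6 : Real.exp 146 = Real.exp 1 ^ 146 := by
        rw [← Real.exp_nat_mul]
        norm_num
      rw [h6]
      exact pow_le_pow_left₀ (by norm_num) h5.le _
    refine le_trans ?_ h4
    norm_num
  calc (((YY s s' n).filter (Cpt s s' n C C' y)).card : ℝ) *
        Real.exp (-((∑ f ∈ frs (sl s) C, al f (se s)) + ∑ f ∈ frs (sl s') C', al f (se s')))
      ≤ ((Real.exp v * Real.exp v') * (10 ^ 63 * Real.exp T *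
          (2 * Real.exp (max 0 (N - M))))) *
        Real.exp (-((∑ f ∈ frs (sl s) C, al f (se s)) + ∑ f ∈ frs (sl s') C', al f (se s'))) := by
        apply mul_le_mul_of_nonneg_right _ (Real.exp_pos _).le
        refine h1.trans ?_
        apply mul_le_mul (mul_le_mul hv hv' (Nat.cast_nonneg _) (Real.exp_pos _).le) _
          (by positivity) (by positivity)
        exact mul_le_mul_of_nonneg_left h2 (by positivity)
    _ = (10 ^ 63 * 2) * (Real.exp v * Real.exp v' * Real.exp T * Real.exp (max 0 (N - M)) *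
        Real.exp (-((∑ f ∈ frs (sl s) C, al f (se s)) +
          ∑ f ∈ frs (sl s') C', al f (se s')))) := by ring
    _ ≤ Real.exp 146 * (Real.exp v * Real.exp v' * Real.exp T * Real.exp (max 0 (N - M)) *
        Real.exp (-((∑ f ∈ frs (sl s) C, al f (se s)) +
          ∑ f ∈ frs (sl s') C', al f (se s')))) :=
        mul_le_mul_of_nonneg_right h3 (by positivity)
    _ = Real.exp (146 + v + v' + T + max 0 (N - M) - ∑ f ∈ frs (sl s) C, al f (se s) -
          ∑ f ∈ frs (sl s') C', al f (se s')) := by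
        rw [← Real.exp_add, ← Real.exp_add, ← Real.exp_add, ← Real.exp_add, ← Real.exp_add]
        congr 1
        ring
    _ ≤ Real.exp (-c) := Real.exp_le_exp.mpr h

end Pool.Agent.Helper98.T4
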