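import Mathlib

/-! Discrete logarithms modulo the powers of an odd prime, compatible in the exponent. -/

set_option autoImplicit false

namespace Pool.Agent.Helper98.T4

/-- `L = plog p a x < p ^ a` with `(1 + p) ^ L = x ^ (p - 1)` modulo `p ^ (a + 1)`
(for `x` prime to `p`; otherwise `0` or some number below `p ^ a`). -/
noncomputable def plog (p a x : ℕ) : ℕ :=
  open Classical in
  if h : ∃ l : ℕ, l < p ^ a ∧ ((1 + p : ZMod (p ^ (a + 1))) ^ l = (x : ZMod (p ^ (a + 1))) ^ (p - 1))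
  then Nat.find h else 0

variable {p : ℕ}

theorem plog_lt (hp : p.Prime) (a x : ℕ) : plog p a x < p ^ a := by
  classical
  unfold plog
  split_ifs with h
  · exact (Nat.find_spec h).1
  · exact pow_pos hp.pos _

theorem exists_plog (hp : p.Prime) (h2 : p ≠ 2) (a x : ℕ) (hx : x.Coprime p) :
    ∃ l : ℕ, l < p ^ a ∧
      ((1 + p : ZMod (p ^ (a + 1))) ^ l = (x : ZMod (p ^ (a + 1))) ^ (p - 1)) := by
  classical
  have : Fact p.Prime := ⟨hp⟩
  have : NeZero (p ^ (a + 1)) := ⟨pow_ne_zero _ hp.ne_zero⟩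
  -- the unit `1 + p`
  have hc1 : (1 + p).Coprime (p ^ (a + 1)) := by
    apply Nat.Coprime.pow_right
    simp [Nat.coprime_comm]
  set g : (ZMod (p ^ (a + 1)))ˣ := ZMod.unitOfCoprime (1 + p) hc1 with hg
  have hxc : x.Coprime (p ^ (a + 1)) := Nat.Coprime.pow_right _ hx
  set u : (ZMod (p ^ (a + 1)))ˣ := ZMod.unitOfCoprime x hxc with hu
  have hgo : orderOf g = p ^ a := by
    rw [← orderOf_units]
    have : ((g : (ZMod (p ^ (a + 1)))ˣ) : ZMod (p ^ (a + 1))) = 1 + p := by
      simp [hg]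
    rw [this]
    exact ZMod.orderOf_one_add_prime hp h2 a
  have hcard : Fintype.card (ZMod (p ^ (a + 1)))ˣ = p ^ a * (p - 1) := by
    rw [ZMod.card_units_eq_totient, Nat.totient_prime_pow_succ hp]
  have hcyc : IsCyclic (ZMod (p ^ (a + 1)))ˣ := ZMod.isCyclic_units_of_prime_pow p hp h2 (a + 1)
  have hupow : (u ^ (p - 1)) ^ (p ^ a) = 1 := by
    rw [← pow_mul, mul_comm, ← hcard]
    exact pow_card_eq_one
  -- elements with `v ^ (p ^ a) = 1` are the powers of `g`
  have hmem : u ^ (p - 1) ∈ Subgroup.zpowers g := by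
    have hle : (Finset.univ.filter fun v : (ZMod (p ^ (a + 1)))ˣ => v ^ (p ^ a) = 1).card ≤ p ^ a :=
      IsCyclic.card_pow_eq_one_le (pow_pos hp.pos _)
    have hsub : (Finset.univ.filter fun v : (ZMod (p ^ (a + 1)))ˣ => v ∈ Subgroup.zpowers g) ⊆
        (Finset.univ.filter fun v : (ZMod (p ^ (a + 1)))ˣ => v ^ (p ^ a) = 1) := by
      intro v hv
      simp only [Finset.mem_filter, Finset.mem_univ, true_and] at hv ⊢
      obtain ⟨k, rfl⟩ := hv
      show (g ^ k) ^ (p ^ a) = 1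
      rw [← zpow_natCast, ← zpow_mul, mul_comm, zpow_mul, zpow_natCast, ← hgo, pow_orderOf_eq_one,
        one_zpow]
    have hcz : (Finset.univ.filter fun v : (ZMod (p ^ (a + 1)))ˣ =>
        v ∈ Subgroup.zpowers g).card = p ^ a := by
      rw [← hgo, ← Fintype.card_zpowers, Fintype.card_subtype]
    have heq := Finset.eq_of_subset_of_card_le hsub (by rw [hcz]; exact hle)
    have : u ^ (p - 1) ∈ (Finset.univ.filter fun v : (ZMod (p ^ (a + 1)))ˣ =>
        v ∈ Subgroup.zpowers g) := by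
      rw [heq]
      simp [hupow]
    simpa using this
  obtain ⟨k, hk, hk2⟩ := (mem_powers_iff_mem_range_orderOf (x := g)).1
    ((mem_powers_iff_mem_zpowers).2 hmem) |> Finset.mem_image.1
  refine ⟨k, ?_, ?_⟩
  · rw [Finset.mem_range, hgo] at hk
    exact hk
  · have := congrArg (Units.val) hk2
    simpa [hg, hu] using this

theorem plog_spec (hp : p.Prime) (h2 : p ≠ 2) (a x : ℕ) (hx : x.Coprime p) :
    (1 + p : ZMod (p ^ (a + 1))) ^ plog p a x = (x : ZMod (p ^ (a + 1))) ^ (p - 1) := by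
  classical
  have h := exists_plog hp h2 a x hx
  unfold plog
  rw [dif_pos h]
  exact (Nat.find_spec h).2

theorem pow_eq_iff (hp : p.Prime) (h2 : p ≠ 2) (a k l : ℕ) :
    (1 + p : ZMod (p ^ (a + 1))) ^ k = (1 + p : ZMod (p ^ (a + 1))) ^ l ↔ k % p ^ a = l % p ^ a := by
  have : NeZero (p ^ (a + 1)) := ⟨pow_ne_zero _ hp.ne_zero⟩
  have hc1 : (1 + p).Coprime (p ^ (a + 1)) := by
    apply Nat.Coprime.pow_right
    simp [Nat.coprime_comm]
  set g : (ZMod (p ^ (a + 1)))ˣ := ZMod.unitOfCoprime (1 + p) hc1 with hg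
  have hgo : orderOf g = p ^ a := by
    rw [← orderOf_units]
    have : ((g : (ZMod (p ^ (a + 1)))ˣ) : ZMod (p ^ (a + 1))) = 1 + p := by
      simp [hg]
    rw [this]
    exact ZMod.orderOf_one_add_prime hp h2 a
  have h1 : g ^ k = g ^ l ↔ k ≡ l [MOD p ^ a] := by
    rw [← hgo]; exact pow_eq_pow_iff_modEq
  rw [← Nat.ModEq.eq_1, ← h1, Units.ext_iff]
  simp [hg]

theorem plog_mul (hp : p.Prime) (h2 : p ≠ 2) (a x y : ℕ) (hx : x.Coprime p) (hy : y.Coprime p) :
    plog p a (x * y) = (plog p a x + plog p a y) % p ^ a := by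
  have h := (pow_eq_iff hp h2 a (plog p a (x * y)) (plog p a x + plog p a y)).1 (by
    rw [plog_spec hp h2 a _ (Nat.Coprime.mul_left hx hy),
      pow_add (1 + p : ZMod (p ^ (a + 1))), plog_spec hp h2 a x hx,
      plog_spec hp h2 a y hy, Nat.cast_mul, mul_pow])
  rw [← h, Nat.mod_eq_of_lt (plog_lt hp a _)]

theorem plog_mod (hp : p.Prime) (h2 : p ≠ 2) {a b : ℕ} (hab : a ≤ b) (x : ℕ) (hx : x.Coprime p) :
    plog p b x % p ^ a = plog p a x := by
  have hb := plog_spec hp h2 b x hx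
  have ha := plog_spec hp h2 a x hx
  have hd : p ^ (a + 1) ∣ p ^ (b + 1) := pow_dvd_pow _ (by omega)
  have hb' := congrArg (ZMod.castHom hd (ZMod (p ^ (a + 1)))) hb
  simp only [map_pow, map_add, map_one, map_natCast] at hb'
  have := (pow_eq_iff hp h2 a (plog p b x) (plog p a x)).1 (hb'.trans ha.symm)
  rw [this, Nat.mod_eq_of_lt (plog_lt hp a x)]

theorem plog_eq_iff (hp : p.Prime) (h2 : p ≠ 2) (a x y : ℕ) (hx : x.Coprime p) (hy : y.Coprime p) :
    plog p a x = plog p a y ↔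
      (x : ZMod (p ^ (a + 1))) ^ (p - 1) = (y : ZMod (p ^ (a + 1))) ^ (p - 1) := by
  rw [← plog_spec hp h2 a x hx, ← plog_spec hp h2 a y hy, pow_eq_iff hp h2,
    Nat.mod_eq_of_lt (plog_lt hp a x), Nat.mod_eq_of_lt (plog_lt hp a y)]

/-- At most `p - 1` numbers below `p ^ (a + 1)` and prime to `p` have a given logarithm. -/
theorem card_plog_le (hp : p.Prime) (h2 : p ≠ 2) (a c : ℕ) :
    ((Finset.range (p ^ (a + 1))).filter fun N => N.Coprime p ∧ plog p a N = c).card ≤ p - 1 := by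
  classical
  have : Fact p.Prime := ⟨hp⟩
  have : NeZero (p ^ (a + 1)) := ⟨pow_ne_zero _ hp.ne_zero⟩
  have hcyc : IsCyclic (ZMod (p ^ (a + 1)))ˣ := ZMod.isCyclic_units_of_prime_pow p hp h2 (a + 1)
  set S := (Finset.range (p ^ (a + 1))).filter fun N => N.Coprime p ∧ plog p a N = c with hS
  rcases S.eq_empty_or_nonempty with h0 | ⟨N0, hN0⟩
  · rw [h0]; simp
  have hN0' := (Finset.mem_filter.1 hN0).2
  have hc0 : N0.Coprime (p ^ (a + 1)) := Nat.Coprime.pow_right _ hN0'.1
  set u0 : (ZMod (p ^ (a + 1)))ˣ := ZMod.unitOfCoprime N0 hc0 with hu0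
  have hle : (Finset.univ.filter fun v : (ZMod (p ^ (a + 1)))ˣ => v ^ (p - 1) = 1).card ≤ p - 1 :=
    IsCyclic.card_pow_eq_one_le (by have := hp.two_le; omega)
  refine le_trans ?_ hle
  -- the map N ↦ u_N / u0
  refine Finset.card_le_card_of_injOn
    (fun N => if h : N.Coprime (p ^ (a + 1)) then ZMod.unitOfCoprime N h / u0 else 1) ?_ ?_
  · intro N hN
    have hN' := (Finset.mem_filter.1 (Finset.mem_coe.1 hN)).2
    have hcN : N.Coprime (p ^ (a + 1)) := Nat.Coprime.pow_right _ hN'.1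
    simp only [Finset.coe_filter, Finset.mem_univ, true_and, Set.mem_ofPred_eq]
    rw [dif_pos hcN, div_pow, div_eq_one]
    have := (plog_eq_iff hp h2 a N N0 hN'.1 hN0'.1).1 (hN'.2.trans hN0'.2.symm)
    apply Units.ext
    simpa [hu0] using this
  · intro N hN M hM hNM
    have hN' := (Finset.mem_filter.1 (Finset.mem_coe.1 hN))
    have hM' := (Finset.mem_filter.1 (Finset.mem_coe.1 hM))
    have hcN : N.Coprime (p ^ (a + 1)) := Nat.Coprime.pow_right _ hN'.2.1
    have hcM : M.Coprime (p ^ (a + 1)) := Nat.Coprime.pow_right _ hM'.2.1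
    simp only at hNM
    rw [dif_pos hcN, dif_pos hcM, div_left_inj] at hNM
    have := congrArg Units.val hNM
    simp only [ZMod.coe_unitOfCoprime] at this
    rw [ZMod.natCast_eq_natCast_iff'] at this
    rwa [Nat.mod_eq_of_lt (Finset.mem_range.1 hN'.1), Nat.mod_eq_of_lt (Finset.mem_range.1 hM'.1)]
      at this

/-- Pairs of primes: the product lies below `p ^ (a + 1)` and the sum of the two logarithms is
known modulo `p ^ a`; there are at most `2 (p - 1)` such ordered pairs. -/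
theorem card_pairs_le (hp : p.Prime) (h2 : p ≠ 2) (a c : ℕ) (P : Finset (ℕ × ℕ))
    (hP : ∀ q ∈ P, q.1.Prime ∧ q.2.Prime ∧ q.1 ≠ p ∧ q.2 ≠ p ∧ q.1 * q.2 < p ^ (a + 1) ∧
      (plog p a q.1 + plog p a q.2) % p ^ a = c) :
    P.card ≤ 2 * (p - 1) := by
  classical
  have hmap : ∀ q ∈ P, q.1 * q.2 ∈
      (Finset.range (p ^ (a + 1))).filter fun N => N.Coprime p ∧ plog p a N = c := by
    intro q hq
    obtain ⟨h1, h1', h3, h4, h5, h6⟩ := hP q hq
    have c1 : q.1.Coprime p := (Nat.coprime_primes h1 hp).2 h3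
    have c2 : q.2.Coprime p := (Nat.coprime_primes h1' hp).2 h4
    refine Finset.mem_filter.2 ⟨Finset.mem_range.2 h5, Nat.Coprime.mul_left c1 c2, ?_⟩
    rw [plog_mul hp h2 a _ _ c1 c2, h6]
  have hfib : ∀ N ∈ (Finset.range (p ^ (a + 1))).filter fun N => N.Coprime p ∧ plog p a N = c,
      (P.filter fun q => q.1 * q.2 = N).card ≤ 2 := by
    intro N _
    by_contra hcon
    push Not at hcon
    obtain ⟨x, hx, y, hy, z, hz, hxy, hxz, hyz⟩ := Finset.two_lt_card.1 hcon
    have key : ∀ x ∈ P.filter (fun q => q.1 * q.2 = N), ∀ y ∈ P.filter (fun q => q.1 * q.2 = N),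
        x ≠ y → y = (x.2, x.1) := by
      intro x hx y hy hne
      obtain ⟨hx1, hx2⟩ := Finset.mem_filter.1 hx
      obtain ⟨hy1, hy2⟩ := Finset.mem_filter.1 hy
      obtain ⟨px1, px2, -⟩ := hP x hx1
      obtain ⟨py1, py2, -⟩ := hP y hy1
      have hd : y.1 ∣ x.1 * x.2 := by rw [hx2, ← hy2]; exact dvd_mul_right _ _
      rcases (py1.dvd_mul).1 hd with h | h
      · have e1 : y.1 = x.1 := (Nat.prime_dvd_prime_iff_eq py1 px1).1 h
        have e2 : y.2 = x.2 := by
          have : x.1 * y.2 = x.1 * x.2 := by rw [hx2, ← hy2, e1]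
          exact Nat.eq_of_mul_eq_mul_left px1.pos this
        exact absurd (Prod.ext e1 e2).symm hne
      · have e1 : y.1 = x.2 := (Nat.prime_dvd_prime_iff_eq py1 px2).1 h
        have e2 : y.2 = x.1 := by
          have : x.2 * y.2 = x.2 * x.1 := by
            rw [← e1, hy2, e1, mul_comm, hx2]
          exact Nat.eq_of_mul_eq_mul_left px2.pos this
        exact Prod.ext e1 e2
    have k1 := key x hx y hy hxy
    have k2 := key x hx z hz hxz
    exact hyz (k1.trans k2.symm)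
  calc P.card = ∑ N ∈ (Finset.range (p ^ (a + 1))).filter
        (fun N => N.Coprime p ∧ plog p a N = c), (P.filter fun q => q.1 * q.2 = N).card :=
        Finset.card_eq_sum_card_fiberwise (fun q hq => hmap q hq)
    _ ≤ ∑ _N ∈ (Finset.range (p ^ (a + 1))).filter
        (fun N => N.Coprime p ∧ plog p a N = c), 2 := Finset.sum_le_sum hfib
    _ = ((Finset.range (p ^ (a + 1))).filter
        (fun N => N.Coprime p ∧ plog p a N = c)).card * 2 := by rw [Finset.sum_const, smul_eq_mul]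
    _ ≤ (p - 1) * 2 := Nat.mul_le_mul_right _ (card_plog_le hp h2 a c)
    _ = 2 * (p - 1) := mul_comm _ _

end Pool.Agent.Helper98.T4
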